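import Pool.Agent.Helper84.TL.Defs

/-!
# Project TL, module P: the union bound, with the bound for one box as a hypothesis
-/

set_option autoImplicit false

namespace Pool.Agent.Helper84.TL

open Finset Pool.Agent.Lead.TB

theorem h59_cnt_mono {n : ℕ} (σ : Fin n → Equiv.Perm (Fin n)) {T₁ T₁' T₂ T₂' T₃ T₃' : Finset (Fin n)}
    (h1 : T₁' ⊆ T₁) (h2 : T₂' ⊆ T₂) (h3 : T₃' ⊆ T₃) : cnt σ T₁' T₂' T₃' ≤ cnt σ T₁ T₂ T₃ := by
  unfold cnt
  refine (Finset.sum_le_sum_of_subset h3).trans (Finset.sum_le_sum fun s _ => ?_)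
  refine Finset.card_le_card fun r hr => ?_
  simp only [Finset.mem_filter] at hr ⊢
  exact ⟨h1 hr.1, h2 hr.2⟩

theorem h59_eight (n : ℕ) (hn : 1 ≤ n) :
    (8 : ℝ) ^ n * Real.exp (-(10 * n)) ≤ Real.exp (-n) / 3 := by
  have h8 : (8 : ℝ) ≤ Real.exp 3 := by
    have h1 := Real.exp_one_gt_d9
    have h2 : Real.exp 3 = Real.exp 1 ^ 3 := by rw [← Real.exp_nat_mul]; norm_num
    rw [h2]
    have h3 : (2 : ℝ) ^ 3 ≤ Real.exp 1 ^ 3 := pow_le_pow_left₀ (by norm_num) (by linarith) 3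
    linarith
  have h3 : (3 : ℝ) ≤ Real.exp 2 := by
    have h1 := Real.exp_one_gt_d9
    have h2 : Real.exp 2 = Real.exp 1 ^ 2 := by rw [← Real.exp_nat_mul]; norm_num
    rw [h2]
    nlinarith
  have h4 : (8 : ℝ) ^ n ≤ Real.exp (3 * n) := by
    have h5 : Real.exp (3 * (n : ℝ)) = Real.exp 3 ^ n := by
      rw [← Real.exp_nat_mul]; ring_nf
    rw [h5]
    exact pow_le_pow_left₀ (by norm_num) h8 n
  have hn' : (1 : ℝ) ≤ n := by exact_mod_cast hn
  calc (8 : ℝ) ^ n * Real.exp (-(10 * n)) ≤ Real.exp (3 * n) * Real.exp (-(10 * n)) :=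
        mul_le_mul_of_nonneg_right h4 (Real.exp_pos _).le
    _ = Real.exp (-(7 * n)) := by rw [← Real.exp_add]; ring_nf
    _ ≤ Real.exp (-n - 2) := Real.exp_le_exp.2 (by linarith)
    _ = Real.exp (-n) / Real.exp 2 := Real.exp_sub _ _
    _ ≤ Real.exp (-n) / 3 :=
        div_le_div_of_nonneg_left (Real.exp_pos _).le (by norm_num) h3

/-- The bound for one box implies the union bound. -/
theorem union_bound_of
    (one_box : ∃ (K : ℝ) (n₀ : ℕ), 0 < K ∧ ∀ n : ℕ, n₀ ≤ n → ∀ T₁ T₂ T₃ : Finset (Fin n),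
      1 ≤ T₃.card → (T₃.card : ℝ) ≤ 2 * (n : ℝ) ^ ((3 : ℝ) / 4) →
      ((emp T₁ T₂ T₃).card : ℝ) ≤ Real.exp (K * n * (1 + Real.log T₃.card) -
        Real.log 2 / 2 * (T₁.card * T₂.card * T₃.card / n)) * (ls n).card) :
    ∃ C : ℝ, ∀ n : ℕ, 1 ≤ n →
    (((ls n).filter fun σ => ∃ T₁ T₂ T₃ : Finset (Fin n), T₃.card ≤ T₁.card ∧ T₃.card ≤ T₂.card ∧
        cnt σ T₁ T₂ T₃ = 0 ∧ C * (n : ℝ) ^ 2 * (1 + Real.log T₃.card) <
          (T₁.card : ℝ) * T₂.card * T₃.card).card : ℝ) ≤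
      Real.exp (-n) / 3 * ((ls n).card : ℝ) := by
  classical
  obtain ⟨K, n₀, hK, hbox⟩ := one_box
  have hl2 : (0 : ℝ) < Real.log 2 := Real.log_pos (by norm_num)
  -- the threshold
  obtain ⟨n₁, hn₁⟩ : ∃ n₁ : ℕ, ∀ n : ℕ, n₁ ≤ n →
      K * (1 + Real.log n) + 10 ≤ Real.log 2 / 2 * (n : ℝ) ^ ((1 : ℝ) / 4) := by
    have h1 : (fun x : ℝ => K * (1 + Real.log x) + 10) =o[Filter.atTop]
        fun x : ℝ => x ^ ((1 : ℝ) / 4) := by
      have ha := isLittleO_log_rpow_atTop (r := (1 : ℝ) / 4) (by norm_num)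
      have hb : (fun _ : ℝ => K + 10) =o[Filter.atTop] fun x : ℝ => x ^ ((1 : ℝ) / 4) := by
        refine Asymptotics.isLittleO_const_left.2 (Or.inr ?_)
        have := tendsto_rpow_atTop (y := (1 : ℝ) / 4) (by norm_num)
        exact tendsto_norm_atTop_atTop.comp this
      have hc := (ha.const_mul_left K).add hb
      refine hc.congr_left fun x => ?_
      ring
    have h2 := h1.bound (c := Real.log 2 / 2) (by positivity)
    have h3 := tendsto_natCast_atTop_atTop (R := ℝ) |>.eventually h2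
    obtain ⟨N, hN⟩ := Filter.eventually_atTop.1 h3
    refine ⟨N, fun n hn => ?_⟩
    have h4 := hN n hn
    rw [Real.norm_eq_abs, Real.norm_eq_abs, abs_of_nonneg (a := (n : ℝ) ^ ((1 : ℝ) / 4))
      (by positivity)] at h4
    exact (le_abs_self _).trans h4
  set N : ℕ := max n₀ n₁ with hN
  set C : ℝ := max (N : ℝ) (2 * (K + 10) / Real.log 2) with hC
  have hC0 : 0 ≤ C := (Nat.cast_nonneg N).trans (le_max_left _ _)
  refine ⟨C, fun n hn => ?_⟩
  have hnR : (1 : ℝ) ≤ n := by exact_mod_cast hn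
  have hnpos : (0 : ℝ) < n := by linarith
  -- triples with a small bound
  set B : Finset (Finset (Fin n) × Finset (Fin n) × Finset (Fin n)) :=
    univ.filter fun q => 1 ≤ q.2.2.card ∧ (q.2.2.card : ℝ) ≤ 2 * (n : ℝ) ^ ((3 : ℝ) / 4) ∧
      K * n * (1 + Real.log q.2.2.card) -
        Real.log 2 / 2 * (q.1.card * q.2.1.card * q.2.2.card / n) ≤ -(10 * n) with hB
  rcases lt_or_ge n N with hlt | hge
  · -- small orders
    have hempty : ((ls n).filter fun σ => ∃ T₁ T₂ T₃ : Finset (Fin n), T₃.card ≤ T₁.card ∧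
        T₃.card ≤ T₂.card ∧ cnt σ T₁ T₂ T₃ = 0 ∧ C * (n : ℝ) ^ 2 * (1 + Real.log T₃.card) <
          (T₁.card : ℝ) * T₂.card * T₃.card) = ∅ := by
      refine Finset.filter_eq_empty_iff.2 fun σ _ => ?_
      rintro ⟨T₁, T₂, T₃, _, _, _, hv⟩
      have hc1 : (T₁.card : ℝ) ≤ n := by exact_mod_cast (card_finset_fin_le T₁)
      have hc2 : (T₂.card : ℝ) ≤ n := by exact_mod_cast (card_finset_fin_le T₂)
      have hc3 : (T₃.card : ℝ) ≤ n := by exact_mod_cast (card_finset_fin_le T₃)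
      have hlog : 0 ≤ Real.log (T₃.card : ℝ) := Real.log_natCast_nonneg _
      have h1 : (T₁.card : ℝ) * T₂.card * T₃.card ≤ n * n * n := by gcongr
      have h2 : (n : ℝ) ≤ C := by
        have : (n : ℝ) ≤ N := by exact_mod_cast hlt.le
        exact this.trans (le_max_left _ _)
      have h3 : (n : ℝ) * n * n ≤ C * (n : ℝ) ^ 2 * (1 + Real.log T₃.card) := by
        calc (n : ℝ) * n * n ≤ C * (n : ℝ) ^ 2 := by nlinarith [sq_nonneg (n : ℝ)]
          _ ≤ C * (n : ℝ) ^ 2 * (1 + Real.log T₃.card) :=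
            le_mul_of_one_le_right (by positivity) (by linarith)
      linarith
    rw [hempty]
    simp only [Finset.card_empty, Nat.cast_zero]
    positivity
  · -- large orders
    have hn0 : n₀ ≤ n := (le_max_left _ _).trans hge
    have hn1 : n₁ ≤ n := (le_max_right _ _).trans hge
    have hsub : ((ls n).filter fun σ => ∃ T₁ T₂ T₃ : Finset (Fin n), T₃.card ≤ T₁.card ∧
        T₃.card ≤ T₂.card ∧ cnt σ T₁ T₂ T₃ = 0 ∧ C * (n : ℝ) ^ 2 * (1 + Real.log T₃.card) <
          (T₁.card : ℝ) * T₂.card * T₃.card) ⊆ B.biUnion fun q => emp q.1 q.2.1 q.2.2 := by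
      intro σ hσ
      rw [Finset.mem_filter] at hσ
      obtain ⟨hls, T₁, T₂, T₃, h31, h32, h0, hv⟩ := hσ
      rw [Finset.mem_biUnion]
      have hlog : 0 ≤ Real.log (T₃.card : ℝ) := Real.log_natCast_nonneg _
      have hc0 : 1 ≤ T₃.card := by
        by_contra hcon
        have h1 : T₃.card = 0 := by omega
        rw [h1] at hv
        simp only [Nat.cast_zero, Real.log_zero, add_zero, mul_one, mul_zero] at hv
        have : 0 ≤ C * (n : ℝ) ^ 2 := by positivity
        linarith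
      rcases le_or_gt (T₃.card : ℝ) (2 * (n : ℝ) ^ ((3 : ℝ) / 4)) with hle | hgt
      · refine ⟨(T₁, T₂, T₃), ?_, Finset.mem_filter.2 ⟨hls, h0⟩⟩
        rw [hB, Finset.mem_filter]
        refine ⟨Finset.mem_univ _, hc0, hle, ?_⟩
        show K * n * (1 + Real.log T₃.card) -
          Real.log 2 / 2 * (T₁.card * T₂.card * T₃.card / n) ≤ -(10 * n)
        have h1 : C * n * (1 + Real.log T₃.card) ≤ (T₁.card : ℝ) * T₂.card * T₃.card / n := by
          rw [le_div_iff₀ hnpos]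
          calc C * n * (1 + Real.log T₃.card) * n = C * (n : ℝ) ^ 2 * (1 + Real.log T₃.card) := by
                ring
            _ ≤ _ := hv.le
        have h2 : 2 * (K + 10) / Real.log 2 ≤ C := le_max_right _ _
        have h3 : K + 10 ≤ Real.log 2 / 2 * C := by
          rw [div_le_iff₀ hl2] at h2
          linarith
        have h4 : Real.log 2 / 2 * (C * n * (1 + Real.log T₃.card)) ≤
            Real.log 2 / 2 * ((T₁.card : ℝ) * T₂.card * T₃.card / n) :=
          mul_le_mul_of_nonneg_left h1 (by positivity)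
        have h5 : (K + 10) * (n * (1 + Real.log T₃.card)) ≤
            Real.log 2 / 2 * C * (n * (1 + Real.log T₃.card)) :=
          mul_le_mul_of_nonneg_right h3 (by positivity)
        have h6 : (n : ℝ) ≤ n * (1 + Real.log T₃.card) :=
          le_mul_of_one_le_right hnpos.le (by linarith)
        nlinarith
      · -- smaller sides
        have hx1 : (1 : ℝ) ≤ (n : ℝ) ^ ((3 : ℝ) / 4) := Real.one_le_rpow hnR (by norm_num)
        set t : ℕ := ⌈(n : ℝ) ^ ((3 : ℝ) / 4)⌉₊ with ht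
        have ht1 : (n : ℝ) ^ ((3 : ℝ) / 4) ≤ t := Nat.le_ceil _
        have ht2 : (t : ℝ) ≤ 2 * (n : ℝ) ^ ((3 : ℝ) / 4) := by
          have := (Nat.ceil_lt_add_one (by positivity : 0 ≤ (n : ℝ) ^ ((3 : ℝ) / 4))).le
          linarith
        have ht3 : t ≤ T₃.card := by
          have : (t : ℝ) ≤ T₃.card := by linarith
          exact_mod_cast this
        have ht4 : 1 ≤ t := by
          have : (1 : ℝ) ≤ t := by linarith
          exact_mod_cast this
        have ht5 : (t : ℝ) ≤ n := by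
          have := ht3.trans (card_finset_fin_le T₃)
          exact_mod_cast this
        obtain ⟨S₁, hS1, hS1c⟩ := Finset.exists_subset_card_eq (ht3.trans h31)
        obtain ⟨S₂, hS2, hS2c⟩ := Finset.exists_subset_card_eq (ht3.trans h32)
        obtain ⟨S₃, hS3, hS3c⟩ := Finset.exists_subset_card_eq ht3
        refine ⟨(S₁, S₂, S₃), ?_, Finset.mem_filter.2 ⟨hls, ?_⟩⟩
        · rw [hB, Finset.mem_filter]
          refine ⟨Finset.mem_univ _, ?_⟩
          show 1 ≤ S₃.card ∧ (S₃.card : ℝ) ≤ 2 * (n : ℝ) ^ ((3 : ℝ) / 4) ∧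
            K * n * (1 + Real.log S₃.card) -
              Real.log 2 / 2 * (S₁.card * S₂.card * S₃.card / n) ≤ -(10 * n)
          rw [hS1c, hS2c, hS3c]
          refine ⟨ht4, ht2, ?_⟩
          have ht0 : (0 : ℝ) < t := by linarith
          have h1 : Real.log t ≤ Real.log n := Real.log_le_log ht0 ht5
          have h2 : (n : ℝ) * (n : ℝ) ^ ((1 : ℝ) / 4) ≤ (t : ℝ) * t * t / n := by
            rw [le_div_iff₀ hnpos]
            have h3 : (n : ℝ) * (n : ℝ) ^ ((1 : ℝ) / 4) * n =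
                (n : ℝ) ^ ((3 : ℝ) / 4) * (n : ℝ) ^ ((3 : ℝ) / 4) * (n : ℝ) ^ ((3 : ℝ) / 4) := by
              rw [← Real.rpow_add hnpos, ← Real.rpow_add hnpos]
              have h4 : (n : ℝ) * (n : ℝ) ^ ((1 : ℝ) / 4) * n =
                  (n : ℝ) ^ (1 : ℝ) * (n : ℝ) ^ ((1 : ℝ) / 4) * (n : ℝ) ^ (1 : ℝ) := by
                rw [Real.rpow_one]
              rw [h4, ← Real.rpow_add hnpos, ← Real.rpow_add hnpos]
              norm_num
            rw [h3]
            gcongr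
          have h3 := hn₁ n hn1
          have h4 : Real.log 2 / 2 * ((n : ℝ) * (n : ℝ) ^ ((1 : ℝ) / 4)) ≤
              Real.log 2 / 2 * ((t : ℝ) * t * t / n) :=
            mul_le_mul_of_nonneg_left h2 (by positivity)
          have h5 : K * n * (1 + Real.log t) ≤ K * n * (1 + Real.log n) :=
            mul_le_mul_of_nonneg_left (by linarith) (by positivity)
          have h6 : n * (K * (1 + Real.log n) + 10) ≤
              n * (Real.log 2 / 2 * (n : ℝ) ^ ((1 : ℝ) / 4)) :=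
            mul_le_mul_of_nonneg_left h3 hnpos.le
          nlinarith
        · exact Nat.le_zero.1 ((h59_cnt_mono σ hS1 hS2 hS3).trans h0.le)
    have hBcard : (B.card : ℝ) ≤ 8 ^ n := by
      have h1 : B.card ≤ 8 ^ n := by
        refine (Finset.card_le_univ B).trans ?_
        simp only [Fintype.card_prod, Fintype.card_finset, Fintype.card_fin]
        rw [← mul_pow, ← mul_pow]
        norm_num
      exact_mod_cast h1
    have h1 : (((ls n).filter fun σ => ∃ T₁ T₂ T₃ : Finset (Fin n), T₃.card ≤ T₁.card ∧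
        T₃.card ≤ T₂.card ∧ cnt σ T₁ T₂ T₃ = 0 ∧ C * (n : ℝ) ^ 2 * (1 + Real.log T₃.card) <
          (T₁.card : ℝ) * T₂.card * T₃.card).card : ℝ) ≤
        ∑ q ∈ B, ((emp q.1 q.2.1 q.2.2).card : ℝ) := by
      have := (Finset.card_le_card hsub).trans Finset.card_biUnion_le
      exact_mod_cast this
    have h2 : ∑ q ∈ B, ((emp q.1 q.2.1 q.2.2).card : ℝ) ≤
        ∑ _q ∈ B, Real.exp (-(10 * n)) * (ls n).card := by
      refine Finset.sum_le_sum fun q hq => ?_
      rw [hB, Finset.mem_filter] at hq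
      obtain ⟨_, hq1, hq2, hq3⟩ := hq
      refine (hbox n hn0 q.1 q.2.1 q.2.2 hq1 hq2).trans ?_
      exact mul_le_mul_of_nonneg_right (Real.exp_le_exp.2 hq3) (Nat.cast_nonneg _)
    rw [Finset.sum_const, nsmul_eq_mul] at h2
    calc _ ≤ _ := h1
      _ ≤ _ := h2
      _ = (B.card : ℝ) * Real.exp (-(10 * n)) * (ls n).card := by ring
      _ ≤ 8 ^ n * Real.exp (-(10 * n)) * (ls n).card := by gcongr
      _ ≤ Real.exp (-n) / 3 * (ls n).card :=
        mul_le_mul_of_nonneg_right (h59_eight n hn) (Nat.cast_nonneg _)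

end Pool.Agent.Helper84.TL
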